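import Mathlib
import Pool.Agent.H54.APTest

namespace Pool.Agent.Results.MP_8aa41f_lc.LowerBound

open Pool.Agent.H54.APTest

theorem result (n k m B : ℕ) (hn : 16 ≤ n) (hk : 1 ≤ k) (hB : B ^ 2 ≤ n) (T : Fin m → Finset ℕ)
    (hT : ∀ i, T i ⊆ Finset.range n ∧
      ∃ a d L : ℕ, T i = (Finset.range L).image (fun j => a + d * j))
    (J : (Fin m → Bool) → Finset ℕ) (hJ : ∀ o, (J o).card ≤ B)
    (h : ∀ S S' : Finset ℕ, S ⊆ Finset.range n → S' ⊆ Finset.range n →
      S.card ≤ k → S'.card ≤ k →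
      (fun i => decide (Disjoint (T i) S)) = (fun i => decide (Disjoint (T i) S')) →
      S ∩ J (fun i => decide (Disjoint (T i) S)) = S' ∩ J (fun i => decide (Disjoint (T i) S)) →
      S = S') :
    Real.log n ≤ 42 * (√m + 2) * Real.log (Real.log n) := by
  obtain ⟨t, ht⟩ : ∃ t, t = Nat.sqrt m + 2 := ⟨_, rfl⟩
  have ht2 : 2 ≤ t := by omega
  have hmt : m ≤ t ^ 2 := by
    have := Nat.lt_succ_sqrt' m
    have h2 : (Nat.sqrt m).succ ^ 2 ≤ t ^ 2 := Nat.pow_le_pow_left (by omega) 2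
    omega
  have htr : (t : ℝ) ≤ √m + 2 := by
    rw [ht]
    push_cast
    linarith [Real.nat_sqrt_le_real_sqrt (a := m)]
  have hn' : (16 : ℝ) ≤ n := by exact_mod_cast hn
  have hl2 := Real.log_two_gt_d9
  have he := Real.exp_one_lt_d9
  have hlog : Real.exp 1 ≤ Real.log n := by
    have h1 : Real.log 16 ≤ Real.log n := Real.log_le_log (by norm_num) hn'
    have h2 : Real.log 16 = 4 * Real.log 2 := by
      rw [show (16 : ℝ) = 2 ^ 4 by norm_num, Real.log_pow]; norm_num
    linarith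
  have hpos : 0 < Real.log n := lt_of_lt_of_le (Real.exp_pos 1) hlog
  have hll : 1 ≤ Real.log (Real.log n) := by
    rw [Real.le_log_iff_exp_le hpos]; exact hlog
  have ht0 : (2 : ℝ) ≤ t := by exact_mod_cast ht2
  suffices hs : Real.log n ≤ 42 * t * Real.log (Real.log n) by
    refine hs.trans ?_
    gcongr
  by_cases hc : Real.log n ≤ t
  · nlinarith
  have hc' : (t : ℝ) < Real.log n := not_le.1 hc
  have htn : t ≤ n := by
    have h1 : Real.log n ≤ n := (Real.log_le_sub_one_of_pos (by linarith)).trans (by linarith)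
    exact_mod_cast (hc'.le.trans h1)
  have h1 := count n m (B + 1) t (4 * t - 1) (by omega) htn
    (by rw [show 4 * t - 1 + 1 = 4 * t by omega]; nlinarith) T hT
    (fib_of_success n k m B hk T J hJ h)
  rw [show 4 * t - 1 + 1 = 4 * t by omega] at h1
  have ht4 : 4 ≤ t ^ 2 := by nlinarith
  have h3 : m + 1 ≤ t ^ 3 := by
    have : t ^ 3 = t * t ^ 2 := by ring
    nlinarith
  have h4 : 2 * m + 2 ≤ t ^ 4 := by
    have : t ^ 4 = t ^ 2 * t ^ 2 := by ring
    nlinarith
  have h5 : (m + 1) * ((m + 1) * (t.factorial * (2 * m + 2) ^ (4 * t))) ≤ t ^ (17 * t + 6) := by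
    calc _ ≤ t ^ 3 * (t ^ 3 * (t ^ t * (t ^ 4) ^ (4 * t))) := by
          gcongr
          exact Nat.factorial_le_pow t
      _ = _ := by rw [← pow_mul]; ring
  have h6 : n ≤ 2 * ((B + 1) * t ^ (17 * t + 6)) := h1.trans (by gcongr)
  have h7 : n ≤ t ^ (42 * t) := by
    have h8 : (B + 1) ^ 2 ≤ 4 * n := by nlinarith
    have h9 : n * n ≤ n * (16 * (t ^ (17 * t + 6)) ^ 2) := by
      calc n * n ≤ (2 * ((B + 1) * t ^ (17 * t + 6))) * (2 * ((B + 1) * t ^ (17 * t + 6))) :=
            Nat.mul_le_mul h6 h6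
        _ = 4 * (B + 1) ^ 2 * (t ^ (17 * t + 6)) ^ 2 := by ring
        _ ≤ 4 * (4 * n) * (t ^ (17 * t + 6)) ^ 2 := by gcongr
        _ = _ := by ring
    have h10 := Nat.le_of_mul_le_mul_left h9 (by omega)
    have h11 : 16 ≤ t ^ 4 := by
      have : t ^ 4 = t ^ 2 * t ^ 2 := by ring
      nlinarith
    calc n ≤ t ^ 4 * (t ^ (17 * t + 6)) ^ 2 := h10.trans (by gcongr)
      _ = t ^ (34 * t + 16) := by rw [← pow_mul]; ring
      _ ≤ _ := Nat.pow_le_pow_right (by omega) (by omega)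
  have h12 : Real.log n ≤ 42 * t * Real.log t := by
    have : Real.log n ≤ Real.log ((t : ℝ) ^ (42 * t)) :=
      Real.log_le_log (by linarith) (by exact_mod_cast h7)
    rw [Real.log_pow] at this
    push_cast at this
    exact this
  refine h12.trans ?_
  gcongr

end Pool.Agent.Results.MP_8aa41f_lc.LowerBound
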